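import Pool.Agent.H.MP_ab000d_co.C
import Pool.Agent.H.MP_4eb715_lc.C
import Pool.Agent.Lib.helper21.Dfa

/-! Atomicity is decidable for ordered forests under the consecutive order. -/

namespace Pool.Agent.Results.MP_ab000d_co.Dec

/-- Ordered graphs: graphs on `Fin n`, with the natural order of the vertices. -/
abbrev OG : Type := Σ n : ℕ, SimpleGraph (Fin n)

/-- The consecutive order: `F` is the restriction of `G` to an interval of vertices. -/
def Le (F G : OG) : Prop := ∃ (i : ℕ) (h : i + F.1 ≤ G.1), ∀ a b : Fin F.1,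
  F.2.Adj a b ↔ G.2.Adj ⟨i + a, by omega⟩ ⟨i + b, by omega⟩

/-- The ordered graph coded by its number of vertices and a list of edges. -/
def gr (c : ℕ × List (ℕ × ℕ)) : OG := ⟨c.1, SimpleGraph.fromRel fun a b => (a.val, b.val) ∈ c.2⟩

/-- The nonempty ordered forests avoiding every member of `B`. -/
def Av (B : List (ℕ × List (ℕ × ℕ))) : Set OG :=
  {x | 0 < x.1 ∧ x.2.IsAcyclic ∧ ∀ c ∈ B, ¬Le (gr c) x}

/-- The joint embedding property of `Av B`. -/
def Atomic (B : List (ℕ × List (ℕ × ℕ))) : Prop :=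
  ∀ x ∈ Av B, ∀ y ∈ Av B, ∃ z ∈ Av B, Le x z ∧ Le y z

open Pool.Agent.H.MP_ab000d_co Pool.Agent.H.MP_4eb715_lc Pool.Agent.Lib.helper21.PR Relation

def toP (x : OG) : Pc :=
  ⟨x.1, fun a b => a < b ∧ ∃ (ha : a < x.1) (hb : b < x.1), x.2.Adj ⟨a, ha⟩ ⟨b, hb⟩,
    fun h => ⟨h.1, h.2.2.1⟩⟩

theorem toP_adj (x : OG) (a b : Fin x.1) : x.2.Adj a b ↔ (toP x).E a b ∨ (toP x).E b a := by
  refine ⟨fun h => ?_, fun h => h.elim (fun g => g.2.2.2) fun g => g.2.2.2.symm⟩
  rcases lt_or_gt_of_ne (Fin.val_ne_of_ne h.ne) with g | g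
  exacts [Or.inl ⟨g, a.2, b.2, h⟩, Or.inr ⟨g, b.2, a.2, h.symm⟩]

theorem toP_surj (y : Pc) : ∃ x, toP x = y := by
  refine ⟨⟨y.n, SimpleGraph.fromRel fun a b => y.E a b⟩,
    Pc.ext rfl (funext fun a => funext fun b => propext ?_)⟩
  simp only [toP, SimpleGraph.fromRel_adj]
  refine ⟨fun ⟨h, _, _, _, g⟩ => g.resolve_right fun k => by have := y.lt k; omega, fun h => ?_⟩
  have := y.lt h
  exact ⟨this.1, by omega, this.2, by simp; omega, Or.inl h⟩

theorem toP_gr (c : Cd) : toP (gr c) = P c := by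
  refine Pc.ext rfl (funext fun a => funext fun b => propext ?_)
  simp only [toP, gr, P, SimpleGraph.fromRel_adj]
  exact ⟨fun ⟨h, _, k, _, g⟩ => ⟨h, k, g⟩,
    fun ⟨h, k, g⟩ => ⟨h, by omega, k, by simp; omega, g⟩⟩

theorem le_iff (x y : OG) : Le x y ↔ ∃ i, occ (toP x) (toP y) i := by
  refine exists_congr fun i => ⟨fun ⟨h, g⟩ => ⟨h, fun a b hb => ?_⟩, fun ⟨h, g⟩ => ⟨h, fun a b => ?_⟩⟩
  · exact ⟨fun ⟨p, q, r, s⟩ => ⟨by omega, _, _, (g ⟨a, q⟩ ⟨b, r⟩).1 s⟩,
      fun ⟨p, q, r, s⟩ => ⟨by omega, (show a < b by omega).trans hb, hb, (g ⟨a, _⟩ ⟨b, hb⟩).2 s⟩⟩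
  · rw [toP_adj, toP_adj, g _ _ b.2, g _ _ a.2]

theorem acyc_iff (x : OG) : x.2.IsAcyclic ↔ Acyc (toP x).E := by
  have key : ∀ a b : Fin x.1, a.val < b.val → ((x.2.deleteEdges {s(a, b)}).Reachable a b ↔
      EqvGen (fun c d => (toP x).E c d ∧ ¬(c = a ∧ d = b)) a b) := by
    intro a b hab
    constructor
    · rw [SimpleGraph.reachable_iff_reflTransGen]
      intro h
      generalize hb : b = b' at h ⊢
      rw [← hb]
      nth_rewrite 1 [← hb] at h
      rw [show (b : ℕ) = b' by rw [hb]]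
      conv => enter [1, c, d]; rw [← hb]
      clear hb
      induction h with
      | refl => exact .refl _
      | @tail u v _ e ih =>
        refine ih.trans _ _ _ ?_
        simp only [SimpleGraph.deleteEdges_adj, Set.mem_singleton_iff, Sym2.eq_iff, not_or,
          Fin.ext_iff] at e
        rcases (toP_adj x u v).1 e.1 with g | g
        · exact .rel _ _ ⟨g, e.2.1⟩
        · exact .symm _ _ (.rel _ _ ⟨g, fun k => e.2.2 k.symm⟩)
    · intro h
      have := eqv_map (r' := (x.2.deleteEdges {s(a, b)}).Reachable)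
        (fun u => if h : u < x.1 then ⟨u, h⟩ else a) (fun c d g => ?_) h
      · simpa [(SimpleGraph.reachable_is_equivalence _).eqvGen_iff] using this
      · obtain ⟨⟨p, q, r, s⟩, t⟩ := g
        refine .rel _ _ (SimpleGraph.Adj.reachable ?_)
        simp only [q, r, dite_true, SimpleGraph.deleteEdges_adj, Set.mem_singleton_iff,
          Sym2.eq_iff, Fin.ext_iff]
        exact ⟨s, by omega⟩
  simp only [SimpleGraph.isAcyclic_iff_forall_adj_isBridge, SimpleGraph.isBridge_iff]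
  refine ⟨fun h a b ⟨p, q, r, s⟩ g => h s ((key ⟨a, q⟩ ⟨b, r⟩ p).2 g), fun h a b e g => ?_⟩
  rcases (toP_adj x a b).1 e with k | k
  · exact h _ _ k ((key a b k.1).1 g)
  · exact h _ _ k ((key b a k.1).1 (Sym2.eq_swap ▸ g.symm))

def Bs (B : List Cd) : Set Pc := P '' {c | c ∈ B}

theorem av_iff (B : List Cd) (x : OG) : x ∈ Av B ↔ ok (Bs B) (toP x) := by
  simp only [Av, Set.mem_setOf_eq, acyc_iff, le_iff, toP_gr, ok, Bs, Set.forall_mem_image,
    not_exists]
  rfl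

theorem atomic_iff (B : List Cd) : Atomic B ↔ Atom (Bs B) := by
  simp only [Atomic, av_iff, le_iff]
  constructor
  · intro h x y hx hy
    obtain ⟨x, rfl⟩ := toP_surj x
    obtain ⟨y, rfl⟩ := toP_surj y
    obtain ⟨z, a, ⟨i, b⟩, j, c⟩ := h x hx y hy
    exact ⟨_, i, j, a, b, c⟩
  · intro h x hx y hy
    obtain ⟨z, i, j, a, b, c⟩ := h _ _ hx hy
    obtain ⟨z, rfl⟩ := toP_surj z
    exact ⟨z, a, ⟨i, b⟩, j, c⟩

theorem occ_iff (x z : Pc) (i : ℕ) : occ x z i ↔
    i + x.n ≤ z.n ∧ ∀ a < x.n, ∀ b < x.n, (x.E a b ↔ z.E (i + a) (i + b)) := by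
  refine and_congr_right fun _ => ⟨fun h a _ b => h a b, fun h a b hb => ?_⟩
  by_cases ha : a < x.n
  · exact h a ha b hb
  · exact ⟨fun g => by have := x.lt g; omega, fun g => by have := z.lt g; omega⟩

theorem ok_iff (B : List Cd) (x : Pc) : ok (Bs B) x ↔ 0 < x.n ∧ (∀ a < x.n, ∀ b < x.n, x.E a b →
    ∃ S ∈ (List.range x.n).sublists', a ∈ S ∧ ¬b ∈ S ∧ ∀ c < x.n, ∀ d < x.n,
      x.E c d ∧ ¬(c = a ∧ d = b) → (c ∈ S ↔ d ∈ S)) ∧ ∀ b ∈ B, ∀ i ≤ x.n, ¬occ (P b) x i := by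
  refine and_congr_right fun _ => and_congr ⟨fun h a ha b hb e => ?_, fun h a b e g => ?_⟩
    ⟨fun h b hb i _ => h _ ⟨b, hb, rfl⟩ i, ?_⟩
  · refine ⟨_, flt_sub _ (EqvGen (fun c d => x.E c d ∧ ¬(c = a ∧ d = b)) a), ?_, ?_,
      fun c hc d hd g => ?_⟩ <;> simp only [mem_flt, List.mem_range]
    · exact ⟨ha, .refl _⟩
    · exact fun g => h a b e g.2
    · exact ⟨fun k => ⟨hd, k.2.trans _ _ _ (.rel _ _ g)⟩,
        fun k => ⟨hc, k.2.trans _ _ _ (.symm _ _ (.rel _ _ g))⟩⟩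
  · have := x.lt e
    obtain ⟨S, -, p, q, r⟩ := h a (by omega) b this.2 e
    have := eqv_map (r' := Iff) (· ∈ S) (fun c d k => .rel _ _
      (r c ((x.lt k.1).1.trans (x.lt k.1).2) d (x.lt k.1).2 k)) g
    exact q (((Equivalence.eqvGen_iff ⟨Iff.refl, Iff.symm, Iff.trans⟩).1 this).1 p)
  · rintro h _ ⟨b, hb, rfl⟩ i g
    exact h b hb i (by have := g.1; omega) g

section
attribute [local irreducible] Primrec Computable

variable {α : Type} [Primcodable α]

@[fun_prop] theorem p_n {c : α → Cd} (hc : Primrec c) : Primrec fun a => (P (c a)).n := by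
  unfold P; fun_prop

@[fun_prop] theorem p_E {c : α → Cd} {u v : α → ℕ} (hc : Primrec c) (hu : Primrec u)
    (hv : Primrec v) : Primrec fun a => cd ((P (c a)).E (u a) (v a)) := by
  unfold P; fun_prop

@[fun_prop] theorem p_occ {c d : α → Cd} {u : α → ℕ} (hc : Primrec c) (hd : Primrec d)
    (hu : Primrec u) : Primrec fun a => cd (occ (P (c a)) (P (d a)) (u a)) := by
  simp only [occ_iff]; fun_prop

@[fun_prop] theorem p_ok {B : α → List Cd} {c : α → Cd} (hB : Primrec B) (hc : Primrec c) :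
    Primrec fun a => cd (ok (Bs (B a)) (P (c a))) := by
  simp only [ok_iff]; fun_prop

@[fun_prop] theorem p_codes {u : α → ℕ} (hu : Primrec u) : Primrec fun a => codes (u a) := by
  unfold codes; fun_prop

@[fun_prop] theorem p_N {u : α → ℕ} (hu : Primrec u) : Primrec fun a => N (u a) := by
  unfold N; fun_prop

def mB (B : List Cd) : ℕ := (B.map fun c => c.1).sum + 1

@[fun_prop] theorem p_mB {B : α → List Cd} (hB : Primrec B) : Primrec fun a => mB (B a) := by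
  unfold mB; fun_prop

def Pos (B : List Cd) (n : ℕ) : Prop :=
  ∃ t ∈ codes n, ∃ M ≤ n, ∃ M' ≤ n, H.MP_ab000d_co.Cert (Bs B) (mB B) (P t) M M'

def Neg (B : List Cd) (n : ℕ) : Prop := ∃ x ∈ codes n, ∃ y ∈ codes n,
  ok (Bs B) (P x) ∧ ok (Bs B) (P y) ∧ ¬∃ w : Pc, w.n ≤ (P x).n + (P y).n + N (mB B) ∧
    JW (Bs B) w (P x) (P y) fun _ _ => True

theorem p_pos : Primrec fun z : List Cd × ℕ => cd (Pos z.1 z.2) := by
  simp only [Pos, H.MP_ab000d_co.Cert, cF, cD, cL, cU, cE, cG, JW, all_iff, ex_iff]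
  fun_prop (maxTransitionDepth := 2) (maxSteps := 10000000)

theorem p_neg : Primrec fun z : List Cd × ℕ => cd (Neg z.1 z.2) := by
  simp only [Neg, JW, ex_iff]
  fun_prop

end

theorem le_mB (B : List Cd) : ∀ b ∈ Bs B, b.n ≤ mB B := by
  rintro _ ⟨c, hc, rfl⟩
  exact (List.le_sum_of_mem (List.mem_map_of_mem (f := fun c : Cd => c.1) hc)).trans (Nat.le_succ _)

theorem result : ComputablePred Atomic := by
  refine Pool.Agent.Lib.helper21.Dfa.dec_of_two (P := Pos) (N := Neg) (pred p_pos) (pred p_neg)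
    (fun B => ?_) fun B => ?_
  · rw [atomic_iff, atom_iff (Nat.succ_pos _) (le_mB B)]
    refine ⟨fun ⟨t, M, M', h⟩ => ?_, fun ⟨_, t, _, M, _, M', _, h⟩ => ⟨_, M, M', h⟩⟩
    obtain ⟨c, hc, rfl⟩ := exists_code (b := t.n + M + M') t (by omega)
    exact ⟨_, c, hc, M, by omega, M', by omega, h⟩
  · rw [atomic_iff]
    constructor
    · intro h
      simp only [Atom, not_forall] at h
      obtain ⟨x, y, hx, hy, h⟩ := h
      obtain ⟨c, hc, rfl⟩ := exists_code (b := x.n + y.n) x (by omega)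
      obtain ⟨d, hd, rfl⟩ := exists_code (b := (P c).n + y.n) y (by omega)
      exact ⟨_, c, hc, d, hd, hx, hy, mt (J_iff (Nat.succ_pos _) (le_mB B) hx hy).2 h⟩
    · rintro ⟨_, x, -, y, -, hx, hy, h⟩ g
      exact h ((J_iff (Nat.succ_pos _) (le_mB B) hx hy).1 (g _ _ hx hy))

end Pool.Agent.Results.MP_ab000d_co.Dec
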